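import Pool.Agent.H88.MSeqDefs
import Pool.Agent.H88.Adm

set_option autoImplicit false

namespace Pool.Agent.Results.MP_b13872_an.Classify

open Pool.Agent.H88.MSeq

theorem result (Ψ : ℝ × ℝ → ℝ) :
    (∀ α β : ℕ → ℝ, IsMultSeq α → IsMultSeq β → (∀ k, 0 ≤ α k) → (∀ k, 0 ≤ β k) →
      IsMultSeq (fun k => Ψ (α k, β k))) ↔
    ∃ (c : ℝ) (m n : ℕ), ∀ x y : ℝ, 0 ≤ x → 0 ≤ y → Ψ (x, y) = c * x ^ m * y ^ n :=
  Pool.Agent.H88.Herm.adm_iff Ψ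

end Pool.Agent.Results.MP_b13872_an.Classify
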